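import Mathlib

/-! # MP_7bc96b_al: support bound for invariant monomial lattices of diagonalizable groups -/

set_option autoImplicit false

open Finset

namespace Pool.Agent.Results.MP_7bc96b_al.SupportBound

variable {X : Type*} [AddCommGroup X] {n : ℕ}

/-- `ℬ_I`: exponent vectors of the invariant monomials whose support is contained in `I`. -/
def BI (χ : Fin n → X) (I : Finset (Fin n)) : Set (Fin n → ℕ) :=
  {m | ∑ i, m i • χ i = 0 ∧ ∀ i, i ∉ I → m i = 0}

/-- the inclusion `ℕ^n → ℤ^n` -/
def cast (m : Fin n → ℕ) : Fin n → ℤ := fun i => (m i : ℤ)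

/-- `ℤℬ_I`, the subgroup of `ℤ^n` generated by `ℬ_I`. -/
def ZBI (χ : Fin n → X) (I : Finset (Fin n)) : AddSubgroup (Fin n → ℤ) :=
  AddSubgroup.closure (cast '' BI χ I)

/-- every group `ℤℬ_I` is generated by the elements of `ℬ_I` with support of size at most `t` -/
def GeneratedBy (χ : Fin n → X) (t : ℕ) : Prop :=
  ∀ I : Finset (Fin n), ZBI χ I =
    AddSubgroup.closure (⋃ J : {J : Finset (Fin n) // J ⊆ I ∧ J.card ≤ t}, cast '' BI χ J.1)

/-- `τ(ℬ)` -/
noncomputable def tau (χ : Fin n → X) : ℕ := sInf {t | GeneratedBy χ t}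

/-- the relation lattice supported on `J` -/
def Lam (χ : Fin n → X) (J : Finset (Fin n)) : Submodule ℤ (Fin n → ℤ) where
  carrier := {m | ∑ i, m i • χ i = 0 ∧ ∀ i, i ∉ J → m i = 0}
  zero_mem' := by simp
  add_mem' := by
    rintro a b ⟨ha, ha'⟩ ⟨hb, hb'⟩
    refine ⟨?_, fun i hi => by simp [ha' i hi, hb' i hi]⟩
    simp only [Pi.add_apply, add_smul, sum_add_distrib, ha, hb, add_zero]
  smul_mem' := by
    rintro c a ⟨ha, ha'⟩
    refine ⟨?_, fun i hi => by simp [ha' i hi]⟩
    simp only [Pi.smul_apply, smul_eq_mul, mul_smul, ← smul_sum, ha, smul_zero]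

lemma mem_Lam {χ : Fin n → X} {J : Finset (Fin n)} {m : Fin n → ℤ} :
    m ∈ Lam χ J ↔ ∑ i, m i • χ i = 0 ∧ ∀ i, i ∉ J → m i = 0 := Iff.rfl

/-- A set with a strictly positive relation: the relation lattice is generated by `ℬ_K`. -/
lemma Lam_le_of_pos (χ : Fin n → X) (K : Finset (Fin n)) (w : Fin n → ℕ) (hw : w ∈ BI χ K)
    (hpos : ∀ i ∈ K, 0 < w i) (m : Fin n → ℤ) (hm : m ∈ Lam χ K) :
    m ∈ AddSubgroup.closure (cast '' BI χ K) := by
  obtain ⟨h1, h2⟩ := hm
  -- a large multiple of `w`
  obtain ⟨M, hM⟩ : ∃ M : ℕ, ∀ i, 0 ≤ m i + M * w i := by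
    refine ⟨∑ i, (m i).natAbs, fun i => ?_⟩
    by_cases hi : i ∈ K
    · have h3 : (m i).natAbs ≤ ∑ i, (m i).natAbs :=
        single_le_sum (f := fun i => (m i).natAbs) (fun _ _ => Nat.zero_le _) (mem_univ i)
      have h4 : ((m i).natAbs : ℤ) ≤ ((∑ i, (m i).natAbs : ℕ) : ℤ) * (w i : ℤ) := by
        have : (m i).natAbs ≤ (∑ i, (m i).natAbs) * w i :=
          h3.trans (Nat.le_mul_of_pos_right _ (hpos i hi))
        exact_mod_cast this
      have h5 := neg_abs_le (m i)
      rw [Int.abs_eq_natAbs] at h5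
      linarith
    · rw [h2 i hi]
      positivity
  have e : m = cast (fun i => (m i + M * w i).toNat) - (M : ℤ) • cast w := by
    funext i
    simp only [cast, Pi.sub_apply, Pi.smul_apply, smul_eq_mul, Int.toNat_of_nonneg (hM i)]
    ring
  rw [e]
  refine AddSubgroup.sub_mem _ (AddSubgroup.subset_closure (Set.mem_image_of_mem cast ?_))
    (AddSubgroup.zsmul_mem _ (AddSubgroup.subset_closure (Set.mem_image_of_mem cast hw)) _)
  refine ⟨?_, ?_⟩
  · have h3 : ∀ i, (m i + M * w i).toNat • χ i = m i • χ i + M • (w i • χ i) := by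
      intro i
      rw [← natCast_zsmul, Int.toNat_of_nonneg (hM i), add_smul, mul_smul, natCast_zsmul,
        natCast_zsmul]
    simp only [h3, sum_add_distrib, ← smul_sum, h1, hw.1, smul_zero, add_zero]
  · intro i hi
    simp [h2 i hi, hw.2 i hi]

/-- Every subgroup of a group generated by `r` elements is generated by at most `r` elements. -/
lemma exists_span (X : Type*) [AddCommGroup X] [AddGroup.FG X] (X' : Submodule ℤ X) :
    ∃ (k : ℕ) (g : Fin k → X), k ≤ AddGroup.rank X ∧ Submodule.span ℤ (Set.range g) = X' := by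
  classical
  obtain ⟨S, hS, hS'⟩ := AddGroup.rank_spec X
  let φ : (S → ℤ) →ₗ[ℤ] X := Fintype.linearCombination ℤ (fun s : S => (s : X))
  have hφ : LinearMap.range φ = ⊤ := by
    rw [Fintype.range_linearCombination]
    have : Set.range (fun s : S => (s : X)) = (S : Set X) := by
      ext x; simp
    rw [this]
    apply SetLike.coe_injective
    have h2 := Submodule.span_int_eq_addSubgroupClosure (S : Set X)
    rw [hS'] at h2
    exact congrArg (fun H : AddSubgroup X => (H : Set X)) h2
  obtain ⟨k, b⟩ := Submodule.basisOfPid (Pi.basisFun ℤ S) (X'.comap φ)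
  refine ⟨k, fun i => φ (b i), ?_, ?_⟩
  · have h1 : Module.finrank ℤ (X'.comap φ) = k := by
      simpa using Module.finrank_eq_card_basis b
    have h2 : Module.finrank ℤ (X'.comap φ) ≤ Module.finrank ℤ (S → ℤ) := Submodule.finrank_le _
    rw [h1] at h2
    simpa [hS] using h2
  · have h3 : Submodule.span ℤ (Set.range (fun i => ((b i : X'.comap φ) : S → ℤ))) = X'.comap φ := by
      have := congrArg (Submodule.map (X'.comap φ).subtype) b.span_eq
      rw [Submodule.map_span, ← Set.range_comp, Submodule.map_top, Submodule.range_subtype] at this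
      exact this
    have h4 : Set.range (fun i => φ (b i)) = φ '' Set.range (fun i => ((b i : X'.comap φ) : S → ℤ)) := by
      rw [← Set.range_comp]; rfl
    rw [h4, ← Submodule.map_span, h3, Submodule.map_comap_eq, hφ, top_inf_eq]

/-- Modulo a prime, `rank X` of the weights suffice to generate. -/
lemma exists_small (X : Type*) [AddCommGroup X] [AddGroup.FG X] {n : ℕ} (χ : Fin n → X)
    (I : Finset (Fin n)) (p : ℕ) (hp : p.Prime) :
    ∃ S ⊆ I, S.card ≤ AddGroup.rank X ∧
      Submodule.span ℤ (χ '' I) ≤ Submodule.span ℤ (χ '' S) ⊔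
        (Ideal.span {(p : ℤ)}) • Submodule.span ℤ (χ '' I) := by
  classical
  set X' := Submodule.span ℤ (χ '' (I : Set (Fin n))) with hX'
  set P : Ideal ℤ := Ideal.span {(p : ℤ)} with hP
  have hPm : P.IsMaximal := by
    have hpr : Prime (p : ℤ) := Nat.prime_iff_prime_int.mp hp
    exact PrincipalIdealRing.isMaximal_of_irreducible hpr.irreducible
  let _ : Field (ℤ ⧸ P) := Ideal.Quotient.field P
  let V := X' ⧸ (P • (⊤ : Submodule ℤ X'))
  have hmem : ∀ i : I, χ i ∈ X' := fun i => Submodule.subset_span ⟨i, i.2, rfl⟩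
  let v : I → V := fun i => Submodule.Quotient.mk ⟨χ i, hmem i⟩
  obtain ⟨κ, a, ha, hspan, hli⟩ := exists_linearIndependent' (K := ℤ ⧸ P) v
  have : Finite κ := Finite.of_injective a ha
  have : Fintype κ := Fintype.ofFinite κ
  obtain ⟨k, g, hk, hg⟩ := exists_span X X'
  have hgm : ∀ j, g j ∈ X' := fun j => hg ▸ Submodule.subset_span ⟨j, rfl⟩
  have hsur : Function.Surjective (algebraMap ℤ (ℤ ⧸ P)) := Ideal.Quotient.mk_surjective
  let q : X' →ₗ[ℤ] V := (P • (⊤ : Submodule ℤ X')).mkQ
  -- spans over `ℤ/P` and over `ℤ`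
  have key : ∀ {J : Type} (f : J → X'), (Submodule.span (ℤ ⧸ P) (Set.range fun j => q (f j))).restrictScalars ℤ
      = (Submodule.span ℤ (Set.range f)).map q := by
    intro J f
    rw [Submodule.restrictScalars_span ℤ (ℤ ⧸ P) hsur, Submodule.map_span, ← Set.range_comp]
    rfl
  -- `V` is generated by `k` elements
  let g' : Fin k → X' := fun j => ⟨g j, hgm j⟩
  have hg' : Submodule.span ℤ (Set.range g') = ⊤ := by
    apply Submodule.map_injective_of_injective X'.subtype_injective
    rw [Submodule.map_span, ← Set.range_comp, Submodule.map_top, Submodule.range_subtype]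
    exact hg
  have hVtop : Submodule.span (ℤ ⧸ P) (Set.range fun j => q (g' j)) = ⊤ := by
    apply Submodule.restrictScalars_injective ℤ
    rw [key g', hg', Submodule.map_top, Submodule.range_mkQ]
    rfl
  have hVfin : Module.Finite (ℤ ⧸ P) V :=
    ⟨Submodule.fg_def.mpr ⟨_, Set.finite_range _, hVtop⟩⟩
  have hcard : Fintype.card κ ≤ k := by
    have h1 := hli.fintype_card_le_finrank
    have h2 := finrank_range_le_card (R := ℤ ⧸ P) (fun j => q (g' j))
    rw [Set.finrank, hVtop, finrank_top, Fintype.card_fin] at h2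
    exact h1.trans h2
  refine ⟨Finset.univ.image fun x => (a x : Fin n), ?_, ?_, ?_⟩
  · intro i hi
    simp only [Finset.mem_image, Finset.mem_univ, true_and] at hi
    obtain ⟨x, rfl⟩ := hi
    exact (a x).2
  · exact (Finset.card_image_le.trans (by simpa using hcard)).trans hk
  · rw [hX', Submodule.span_le]
    rintro _ ⟨i, hi, rfl⟩
    have h1 : v ⟨i, hi⟩ ∈ Submodule.span (ℤ ⧸ P) (Set.range (v ∘ a)) := by
      rw [hspan]; exact Submodule.subset_span ⟨_, rfl⟩
    have h2 : v ⟨i, hi⟩ ∈ (Submodule.span ℤ (Set.range fun x : κ => (⟨χ (a x), hmem (a x)⟩ : X'))).map q := by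
      rw [← key]
      exact h1
    obtain ⟨y, hy, hyv⟩ := h2
    have h3 : (⟨χ i, hmem ⟨i, hi⟩⟩ : X') - y ∈ P • (⊤ : Submodule ℤ X') := by
      rw [← Submodule.Quotient.eq]
      exact hyv.symm
    have h4 : χ i - y ∈ P • X' := by
      have := Submodule.mem_map_of_mem (f := X'.subtype) h3
      rw [Submodule.map_smul'', Submodule.map_top, Submodule.range_subtype] at this
      exact this
    have h5 : (y : X) ∈ Submodule.span ℤ (χ '' (Finset.univ.image fun x => (a x : Fin n) : Finset (Fin n))) := by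
      have := Submodule.mem_map_of_mem (f := X'.subtype) hy
      rw [Submodule.map_span, ← Set.range_comp] at this
      refine Submodule.span_mono ?_ this
      rintro _ ⟨x, rfl⟩
      exact ⟨a x, by simp, rfl⟩
    rw [SetLike.mem_coe, Submodule.mem_sup]
    exact ⟨y, h5, _, h4, by abel⟩

/-- Claim 1: relations are generated by relations of support at most `rank X + 1`. -/
lemma Lam_le_iSup [AddGroup.FG X] (χ : Fin n → X) (I : Finset (Fin n)) :
    Lam χ I ≤ ⨆ J : {J : Finset (Fin n) // J ⊆ I ∧ J.card ≤ AddGroup.rank X + 1}, Lam χ J.1 := by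
  classical
  set T := ⨆ J : {J : Finset (Fin n) // J ⊆ I ∧ J.card ≤ AddGroup.rank X + 1}, Lam χ J.1 with hT
  have hle : ∀ J : Finset (Fin n), J ⊆ I → J.card ≤ AddGroup.rank X + 1 → Lam χ J ≤ T :=
    fun J h1 h2 => le_iSup (fun J : {J : Finset (Fin n) // J ⊆ I ∧ J.card ≤ AddGroup.rank X + 1} =>
      Lam χ J.1) ⟨J, h1, h2⟩
  intro m hm
  -- the ideal of multipliers
  let A : Ideal ℤ := T.comap (LinearMap.toSpanSingleton ℤ (Fin n → ℤ) m)
  have hA : ∀ a : ℤ, a ∈ A ↔ a • m ∈ T := fun a => Iff.rfl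
  suffices h : A = ⊤ by
    have : (1 : ℤ) ∈ A := by rw [h]; trivial
    rw [hA, one_smul] at this
    exact this
  by_contra hne
  obtain ⟨M, hM, hAM⟩ := Ideal.exists_le_maximal A hne
  -- `M = (p)`
  obtain ⟨p, hp, hMp⟩ : ∃ p : ℕ, p.Prime ∧ M = Ideal.span {(p : ℤ)} := by
    have h0 : M ≠ ⊥ := Ring.ne_bot_of_isMaximal_of_not_isField hM Int.not_isField
    obtain ⟨g, hg⟩ := (inferInstance : M.IsPrincipal).principal
    have hg0 : g ≠ 0 := by
      rintro rfl
      exact h0 (by rw [hg]; simp)
    have hgp : Prime g := by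
      rw [← Ideal.span_singleton_prime hg0]
      have := hM.isPrime
      rwa [hg] at this
    refine ⟨g.natAbs, Int.prime_iff_natAbs_prime.mp hgp, ?_⟩
    rw [hg, Int.span_natAbs]
  obtain ⟨S, hSI, hScard, hS⟩ := exists_small X χ I p hp
  set Y := Submodule.span ℤ (χ '' (S : Set (Fin n))) with hY
  set X' := Submodule.span ℤ (χ '' (I : Set (Fin n))) with hX'
  -- Nakayama
  obtain ⟨a, ha1, ha2⟩ : ∃ a : ℤ, a - 1 ∈ Ideal.span {(p : ℤ)} ∧ ∀ x ∈ X', a • x ∈ Y := by
    have hfg : (X'.map Y.mkQ).FG := by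
      refine Submodule.FG.map _ ?_
      exact Submodule.fg_def.mpr ⟨_, (Finset.finite_toSet I).image χ, rfl⟩
    have hin : X'.map Y.mkQ ≤ Ideal.span {(p : ℤ)} • X'.map Y.mkQ := by
      have := Submodule.map_mono (f := Y.mkQ) hS
      rw [Submodule.map_sup, Submodule.mkQ_map_self, bot_sup_eq, Submodule.map_smul''] at this
      exact this
    obtain ⟨a, h1, h2⟩ := Submodule.exists_sub_one_mem_and_smul_eq_zero_of_fg_of_le_smul _ _ hfg hin
    refine ⟨a, h1, fun x hx => ?_⟩
    have h3 := h2 _ (Submodule.mem_map_of_mem (f := Y.mkQ) hx)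
    rw [← map_smul, Submodule.mkQ_apply, Submodule.Quotient.mk_eq_zero] at h3
    exact h3
  have haM : a ∉ M := by
    intro h
    have : (1 : ℤ) ∈ M := by
      have h1 := M.sub_mem h (hMp ▸ ha1)
      simpa using h1
    exact hM.ne_top ((Ideal.eq_top_iff_one M).mpr this)
  apply haM
  apply hAM
  rw [hA]
  -- coefficients
  have hc : ∀ i ∈ I, ∃ c : Fin n → ℤ, (∀ s, s ∉ S → c s = 0) ∧ a • χ i = ∑ s, c s • χ s := by
    intro i hi
    have h1 := ha2 (χ i) (Submodule.subset_span ⟨i, hi, rfl⟩)
    rw [hY, Submodule.mem_span_image_finset_iff_exists_fun'] at h1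
    obtain ⟨c, hc⟩ := h1
    refine ⟨fun s => if s ∈ S then c s else 0, fun s hs => by simp [hs], ?_⟩
    rw [← hc]
    simp [ite_smul]
  choose! c hc1 hc2 using hc
  -- the relations `ρ_i`
  have hρ : ∀ i ∈ I, (a • Pi.single i (1 : ℤ) - c i : Fin n → ℤ) ∈ T := by
    intro i hi
    refine hle (insert i S) (Finset.insert_subset hi hSI)
      ((Finset.card_insert_le _ _).trans (by lia)) ⟨?_, ?_⟩
    · simp only [Pi.sub_apply, Pi.smul_apply, smul_eq_mul, sub_smul, Finset.sum_sub_distrib,
        ← hc2 i hi, mul_smul, Pi.single_apply, ite_smul, one_smul, zero_smul, smul_ite, smul_zero]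
      simp
    · intro j hj
      have hji : j ≠ i := fun h => hj (h ▸ Finset.mem_insert_self _ _)
      have hjS : j ∉ S := fun h => hj (Finset.mem_insert_of_mem h)
      simp [hc1 i hi j hjS, Pi.single_eq_of_ne hji]
  have hsum : ∑ i ∈ I, m i • (a • Pi.single i (1 : ℤ) - c i : Fin n → ℤ) ∈ T :=
    Submodule.sum_mem _ fun i hi => T.smul_mem _ (hρ i hi)
  have hmsum : m = ∑ i ∈ I, m i • (Pi.single i (1 : ℤ) : Fin n → ℤ) := by
    funext j
    simp only [Finset.sum_apply, Pi.smul_apply, smul_eq_mul, Pi.single_apply, mul_ite, mul_one,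
      mul_zero]
    by_cases hj : j ∈ I
    · simp [hj]
    · simp [hj, hm.2 j hj]
  have hrest : ∑ i ∈ I, m i • (a • Pi.single i (1 : ℤ) - c i : Fin n → ℤ)
      = a • m - ∑ i ∈ I, m i • c i := by
    have h1 : ∀ i ∈ I, m i • (a • Pi.single i (1 : ℤ) - c i : Fin n → ℤ)
        = a • (m i • Pi.single i (1 : ℤ)) - m i • c i := by
      intro i _
      rw [smul_sub, smul_comm (m i) a]
    rw [Finset.sum_congr rfl h1, Finset.sum_sub_distrib, ← Finset.smul_sum, ← hmsum]
  have hS : ∑ i ∈ I, m i • c i ∈ T := by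
    refine hle S hSI (by lia) ⟨?_, ?_⟩
    · have h1 : ∀ j, (∑ i ∈ I, m i • c i) j • χ j = ∑ i ∈ I, m i • (c i j • χ j) := by
        intro j
        rw [Finset.sum_apply, Finset.sum_smul]
        exact Finset.sum_congr rfl fun i _ => by rw [Pi.smul_apply, smul_assoc]
      rw [Finset.sum_congr rfl fun j _ => h1 j, Finset.sum_comm]
      have h2 : ∀ i ∈ I, ∑ j, m i • (c i j • χ j) = a • (m i • χ i) := by
        intro i hi
        rw [← Finset.smul_sum, ← hc2 i hi, smul_comm]
      rw [Finset.sum_congr rfl h2, ← Finset.smul_sum]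
      have h3 : ∑ i ∈ I, m i • χ i = 0 := by
        rw [← hm.1]
        refine Finset.sum_subset (Finset.subset_univ I) fun i _ hi => ?_
        rw [hm.2 i hi, zero_smul]
      rw [h3, smul_zero]
    · intro j hj
      rw [Finset.sum_apply]
      exact Finset.sum_eq_zero fun i hi => by rw [Pi.smul_apply, hc1 i hi j hj, smul_zero]
  have : a • m = ∑ i ∈ I, m i • (a • Pi.single i (1 : ℤ) - c i : Fin n → ℤ)
      + ∑ i ∈ I, m i • c i := by
    rw [hrest]; abel
  rw [this]
  exact T.add_mem hsum hS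

/-- Claim 2: every subset of size `≤ t` of a positive set `I` is contained in a positive
subset of size at most `t + d`. -/
lemma exists_pos [AddGroup.FG X] (χ : Fin n → X) (I : Finset (Fin n)) (w : Fin n → ℕ)
    (hw : w ∈ BI χ I) (hpos : ∀ i ∈ I, 0 < w i) (J : Finset (Fin n)) (hJ : J ⊆ I) :
    ∃ K : Finset (Fin n), J ⊆ K ∧ K ⊆ I ∧ K.card ≤ J.card + Module.finrank ℤ X ∧
      ∃ u ∈ BI χ K, ∀ i ∈ K, 0 < u i := by
  classical
  have : Module.Finite ℤ X := by
    rw [Module.Finite.iff_addGroup_fg]; infer_instance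
  -- the admissible support sizes
  let Pr : ℕ → Prop := fun k => ∃ (N : ℕ) (c : Fin n → ℕ), 0 < N ∧ (∀ i, i ∉ I → c i = 0) ∧
    N • ∑ j ∈ J, χ j + ∑ i, c i • χ i = 0 ∧ (Finset.univ.filter fun i => c i ≠ 0).card = k
  have hex : ∃ k, Pr k := by
    refine ⟨_, 1, fun i => if i ∈ J then w i - 1 else w i, one_pos, ?_, ?_, rfl⟩
    · intro i hi
      have : i ∉ J := fun h => hi (hJ h)
      simp [this, hw.2 i hi]
    · rw [← hw.1, one_smul]
      have h1 : ∑ j ∈ J, χ j = ∑ i, (if i ∈ J then 1 else 0 : ℕ) • χ i := by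
        simp [ite_smul]
      rw [h1, ← Finset.sum_add_distrib]
      refine Finset.sum_congr rfl fun i _ => ?_
      rw [← add_smul]
      congr 1
      by_cases hi : i ∈ J
      · have := hpos i (hJ hi)
        simp only [hi, if_true]; lia
      · simp [hi]
  obtain ⟨N, c, hN, hcI, hrel, hcard⟩ := Nat.find_spec hex
  set K' := Finset.univ.filter fun i => c i ≠ 0 with hK'
  have hcK : ∀ i, i ∉ K' → c i = 0 := fun i hi => by simpa [hK'] using hi
  have hcK2 : ∀ i ∈ K', 0 < c i := fun i hi => by
    have : c i ≠ 0 := by simpa [hK'] using hi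
    lia
  -- the key reduction step
  have step : ∀ b : Fin n → ℤ, (∀ i, i ∉ K' → b i = 0) → ∑ i, b i • χ i = 0 → ¬ ∃ i, 0 < b i := by
    rintro b hb hbrel ⟨i1, hi1⟩
    have hi1K : i1 ∈ K' := by
      by_contra h
      rw [hb i1 h] at hi1; exact lt_irrefl _ hi1
    obtain ⟨k, hk, hkmax⟩ := (K'.filter fun i => 0 < b i).exists_max_image
      (fun i => (b i : ℚ) / (c i : ℚ)) ⟨i1, by simp [hi1, hi1K]⟩
    rw [Finset.mem_filter] at hk
    have hck := hcK2 k hk.1
    have hnn : ∀ i, 0 ≤ b k * c i - c k * b i := by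
      intro i
      by_cases hi : i ∈ K'
      · by_cases hbi : 0 < b i
        · have h1 := hkmax i (by simp [hi, hbi])
          have hci := hcK2 i hi
          rw [div_le_div_iff₀ (by exact_mod_cast hci) (by exact_mod_cast hck)] at h1
          have h2 : b i * c k ≤ b k * c i := by exact_mod_cast h1
          linarith
        · have h2 : c k * b i ≤ 0 := mul_nonpos_of_nonneg_of_nonpos (by positivity) (by linarith)
          have h3 : 0 ≤ b k * c i := mul_nonneg hk.2.le (by positivity)
          linarith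
      · simp [hb i hi, hcK i hi]
    have hnew : Pr (Finset.univ.filter fun i => (b k * c i - c k * b i).toNat ≠ 0).card := by
      refine ⟨(b k).toNat * N, fun i => (b k * c i - c k * b i).toNat, ?_, ?_, ?_, rfl⟩
      · exact Nat.mul_pos (by have := hk.2; lia) hN
      · intro i hi
        have hiK : i ∉ K' := fun h => (hcK2 i h).ne' (hcI i hi)
        simp [hb i hiK, hcI i hi]
      · have h1 : ∀ i, (b k * c i - c k * b i).toNat • χ i
            = b k • (c i • χ i) - (c k : ℤ) • (b i • χ i) := by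
          intro i
          rw [← natCast_zsmul, Int.toNat_of_nonneg (hnn i), sub_smul, mul_smul, mul_smul,
            natCast_zsmul]
        have h2 : ((b k).toNat * N) • ∑ j ∈ J, χ j = b k • (N • ∑ j ∈ J, χ j) := by
          rw [mul_smul, ← natCast_zsmul, Int.toNat_of_nonneg hk.2.le]
        rw [h2, Finset.sum_congr rfl fun i _ => h1 i, Finset.sum_sub_distrib, ← Finset.smul_sum,
          ← Finset.smul_sum, hbrel, smul_zero, sub_zero, ← smul_add, hrel, smul_zero]
    have h3 := Nat.find_min' hex hnew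
    rw [← hcard] at h3
    have h4 : (Finset.univ.filter fun i => (b k * c i - c k * b i).toNat ≠ 0) ⊆ K'.erase k := by
      intro i hi
      rw [Finset.mem_filter] at hi
      rw [Finset.mem_erase]
      refine ⟨?_, ?_⟩
      · rintro rfl
        apply hi.2
        rw [mul_comm, sub_self, Int.toNat_zero]
      · by_contra h
        apply hi.2
        simp [hb i h, hcK i h]
    have h5 := Finset.card_le_card h4
    rw [Finset.card_erase_of_mem hk.1] at h5
    have h6 : 0 < K'.card := Finset.card_pos.mpr ⟨k, hk.1⟩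
    lia
  have hli : LinearIndependent ℤ (fun i : K' => χ i) := by
    rw [Fintype.linearIndependent_iff]
    intro g hg
    by_contra hne
    push Not at hne
    obtain ⟨i0, hi0⟩ := hne
    let b : Fin n → ℤ := fun i => if h : i ∈ K' then g ⟨i, h⟩ else 0
    have hb : ∀ i, i ∉ K' → b i = 0 := fun i hi => by simp [b, hi]
    have hbrel : ∑ i, b i • χ i = 0 := by
      rw [← hg, ← Finset.sum_subset (Finset.subset_univ K') fun i _ hi => by rw [hb i hi, zero_smul],
        ← Finset.sum_coe_sort]
      exact Finset.sum_congr rfl fun i _ => by simp [b]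
    rcases lt_or_gt_of_ne hi0 with h | h
    · refine step (fun i => - b i) (fun i hi => by simp [hb i hi]) ?_ ⟨i0, ?_⟩
      · simp only [neg_smul, Finset.sum_neg_distrib, hbrel, neg_zero]
      · simp only [b, i0.2, dif_pos]; simpa using h
    · exact step b hb hbrel ⟨i0, by simpa [b] using h⟩
  have hK'card : K'.card ≤ Module.finrank ℤ X := by
    simpa using hli.fintype_card_le_finrank
  refine ⟨J ∪ K', Finset.subset_union_left, Finset.union_subset hJ ?_,
    (Finset.card_union_le _ _).trans (by lia), fun i => (if i ∈ J then N else 0) + c i, ⟨?_, ?_⟩, ?_⟩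
  · intro i hi
    by_contra h
    exact (hcK2 i hi).ne' (hcI i h)
  · rw [← hrel]
    simp only [add_smul, Finset.sum_add_distrib, ite_smul, zero_smul]
    congr 1
    simp [Finset.smul_sum]
  · intro i hi
    rw [Finset.mem_union, not_or] at hi
    simp [hi.1, hcK i hi.2]
  · intro i hi
    rw [Finset.mem_union] at hi
    rcases hi with hi | hi
    · simp only [hi, if_true]; lia
    · have := hcK2 i hi; lia

/-- the main bound, in terms of generation -/
theorem generatedBy_bound [AddGroup.FG X] (χ : Fin n → X) :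
    GeneratedBy χ (1 + Module.finrank ℤ X + AddGroup.rank X) := by
  classical
  intro I
  apply le_antisymm
  · -- the set of indices that occur
    let I' : Finset (Fin n) := I.filter fun i => ∃ m ∈ BI χ I, m i ≠ 0
    have hI' : I' ⊆ I := Finset.filter_subset _ _
    have hwit : ∀ i, i ∈ I' → ∃ m ∈ BI χ I, m i ≠ 0 := fun i hi => (Finset.mem_filter.mp hi).2
    choose! f hf1 hf2 using hwit
    -- every element of `BI χ I` is supported in `I'`
    have hsub : ∀ m ∈ BI χ I, m ∈ BI χ I' := by
      intro m hm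
      refine ⟨hm.1, fun i hi => ?_⟩
      by_contra h
      apply hi
      have hiI : i ∈ I := by
        by_contra h2
        exact h (hm.2 i h2)
      exact Finset.mem_filter.mpr ⟨hiI, m, hm, h⟩
    let w : Fin n → ℕ := ∑ i ∈ I', f i
    have hw : w ∈ BI χ I' := by
      refine ⟨?_, ?_⟩
      · have h1 : ∀ j, w j • χ j = ∑ i ∈ I', f i j • χ j := by
          intro j
          simp only [w, Finset.sum_apply, Finset.sum_smul]
        rw [Finset.sum_congr rfl fun j _ => h1 j, Finset.sum_comm]
        exact Finset.sum_eq_zero fun i hi => (hf1 i hi).1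
      · intro j hj
        simp only [w, Finset.sum_apply]
        exact Finset.sum_eq_zero fun i hi => (hsub _ (hf1 i hi)).2 j hj
    have hwpos : ∀ i ∈ I', 0 < w i := by
      intro i hi
      simp only [w, Finset.sum_apply]
      have h1 : f i i ≤ ∑ c ∈ I', f c i :=
        Finset.single_le_sum (f := fun c => f c i) (fun _ _ => Nat.zero_le _) hi
      have h2 := hf2 i hi
      lia
    rw [ZBI, AddSubgroup.closure_le]
    rintro _ ⟨m, hm, rfl⟩
    have hmL : cast m ∈ Lam χ I' := by
      have h1 := hsub m hm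
      refine ⟨?_, fun i hi => by simp [cast, h1.2 i hi]⟩
      rw [← h1.1]
      exact Finset.sum_congr rfl fun i _ => by simp [cast]
    have hmT := Lam_le_iSup χ I' hmL
    set G := AddSubgroup.closure (⋃ J : {J : Finset (Fin n) // J ⊆ I ∧
      J.card ≤ 1 + Module.finrank ℤ X + AddGroup.rank X}, cast '' BI χ J.1) with hG
    have hle : (⨆ J : {J : Finset (Fin n) // J ⊆ I' ∧ J.card ≤ AddGroup.rank X + 1}, Lam χ J.1)
        ≤ AddSubgroup.toIntSubmodule G := by
      refine iSup_le fun ⟨J, hJ, hJc⟩ => ?_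
      intro x hx
      obtain ⟨K, hJK, hKI, hKc, u, hu, hupos⟩ := exists_pos χ I' w hw hwpos J hJ
      have hxK : x ∈ Lam χ K := ⟨hx.1, fun i hi => hx.2 i fun h => hi (hJK h)⟩
      have h1 := Lam_le_of_pos χ K u hu hupos x hxK
      refine AddSubgroup.closure_mono ?_ h1
      exact Set.subset_iUnion (fun J : {J : Finset (Fin n) // J ⊆ I ∧
        J.card ≤ 1 + Module.finrank ℤ X + AddGroup.rank X} => cast '' BI χ J.1)
        ⟨K, hKI.trans hI', by lia⟩
    exact hle hmT
  · rw [AddSubgroup.closure_le]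
    refine Set.iUnion_subset fun ⟨J, hJ, _⟩ => ?_
    rintro _ ⟨m, hm, rfl⟩
    exact AddSubgroup.subset_closure (Set.mem_image_of_mem cast
      (⟨hm.1, fun i hi => hm.2 i fun h => hi (hJ h)⟩ : m ∈ BI χ I))

/-- **Support bound.** For every finitely generated abelian group `X` (the character group of an
arbitrary diagonalizable group `G`, with `dim G = Module.finrank ℤ X`) and all `χ_1, …, χ_n ∈ X`,
the groups `ℤℬ_I` are generated by the elements of `ℬ_I` of support size at most
`1 + dim G + rk X`, i.e. `τ(ℬ) ≤ 1 + dim G + rk X`. -/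
theorem result : ∀ (X : Type) [AddCommGroup X] [AddGroup.FG X] (n : ℕ) (χ : Fin n → X),
    GeneratedBy χ (1 + Module.finrank ℤ X + AddGroup.rank X) ∧
      tau χ ≤ 1 + Module.finrank ℤ X + AddGroup.rank X :=
  fun _ _ _ _ χ => ⟨generatedBy_bound χ, Nat.sInf_le (generatedBy_bound χ)⟩

end Pool.Agent.Results.MP_7bc96b_al.SupportBound
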